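import Pool.Agent.H4.TA.Targets

/-! FIN: the main theorem from its three parts (MP_183c3b_co). -/

set_option autoImplicit false

open Finset Pool.Agent.H43.TC

namespace Pool.Agent.H4.TA

theorem pf_FIN (hFLO : T_FLO) (hFUP : T_FUP) (hDES : T_DES) : T_FIN := by
  intro k ε hk hε
  obtain ⟨t₁, h₁⟩ := hFLO k ε hk hε
  obtain ⟨t₂, h₂⟩ := hFUP k ε hk hε
  refine ⟨max (max t₁ t₂) 1, fun t ht => ?_⟩
  have ht1 : t₁ ≤ t := (le_max_left _ _).trans ((le_max_left _ _).trans ht)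
  have ht2 : t₂ ≤ t := (le_max_right _ _).trans ((le_max_left _ _).trans ht)
  have ht3 : 1 ≤ t := (le_max_right _ _).trans ht
  obtain ⟨f, hf, hf'⟩ := hDES k t (by omega) ht3
  refine ⟨f, hf, fun x hx0 hx1 => ?_⟩
  obtain ⟨hfx, hmin⟩ := hf' x hx0 hx1
  have hlow := h₁ t ht1 x (f x) hfx
  obtain ⟨y, hy, hyu⟩ := h₂ t ht2 x hx0 hx1
  have hup := hmin y hy
  rw [abs_le]
  constructor <;> linarith

end Pool.Agent.H4.TA
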