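import Pool.Agent.H4.TA.Targets2

/-! FN2: the main theorem in explicit form (MP_183c3b_co). -/

set_option autoImplicit false

open Finset Filter Topology Pool.Agent.H43.TC

namespace Pool.Agent.H4.TA

lemma expl (hFIN : T_FIN) (hEXC : T_EXC) (k : ℕ) (hk : 2 ≤ k) (a : ℕ → ℝ)
    (ha : ∀ᶠ t in atTop, 0 < a t) (hl : Tendsto (fun t : ℕ => rng k t / a t) atTop (𝓝 1))
    (ε : ℝ) (hε : 0 < ε) : ∃ t₀ : ℕ, ∀ t : ℕ, t₀ ≤ t → ∃ f : ℝ → ℝ,
    region k t = {p | (0 ≤ p.1 ∧ p.1 ≤ 1) ∧ (0 ≤ p.2 ∧ p.2 ≤ 1) ∧ f p.1 ≤ p.2 ∧ f p.2 ≤ p.1} ∧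
    ∀ x : ℝ, 0 ≤ x → x ≤ 1 → |f x - Real.exp (-(a t * (1 - x)))| ≤ ε := by
  obtain ⟨δ, hδ, hexp⟩ := hEXC (ε / 2) (by positivity)
  obtain ⟨t₁, h₁⟩ := hFIN k (ε / 2) hk (by positivity)
  have h2 : ∀ᶠ t : ℕ in atTop, |rng k t / a t - 1| ≤ δ := by
    have := (Metric.tendsto_nhds.1 hl) δ hδ
    refine this.mono fun t ht => ?_
    rw [Real.dist_eq] at ht
    exact ht.le
  obtain ⟨t₂, h₂⟩ := eventually_atTop.1 (ha.and h2)
  refine ⟨max t₁ t₂, fun t ht => ?_⟩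
  obtain ⟨hat, hrt⟩ := h₂ t ((le_max_right _ _).trans ht)
  obtain ⟨f, hf, hfe⟩ := h₁ t ((le_max_left _ _).trans ht)
  refine ⟨f, hf, fun x hx0 hx1 => ?_⟩
  have hv : 0 ≤ a t * (1 - x) := mul_nonneg hat.le (by linarith)
  have h3 := hexp (rng k t / a t) (a t * (1 - x)) hrt hv
  have e1 : rng k t / a t * (a t * (1 - x)) = rng k t * (1 - x) := by
    field_simp
  rw [e1] at h3
  have h4 := hfe x hx0 hx1
  have h5 := abs_add_le (f x - Real.exp (-(rng k t * (1 - x))))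
    (Real.exp (-(rng k t * (1 - x))) - Real.exp (-(a t * (1 - x))))
  rw [sub_add_sub_cancel] at h5
  linarith

theorem pf_FN2 (hFIN : T_FIN) (hE2L : T_E2L) (hE3L : T_E3L) (hEXC : T_EXC) : T_FN2 := by
  intro k hk
  rcases eq_or_lt_of_le hk with rfl | hk3
  · refine ⟨fun t => Real.pi * t / Real.log t, fun _ _ => rfl, fun h => by omega, ?_⟩
    refine expl hFIN hEXC 2 le_rfl _ ?_ hE2L
    refine eventually_atTop.2 ⟨2, fun t ht => ?_⟩
    have h1 : (1 : ℝ) < t := by exact_mod_cast (by omega : 1 < t)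
    have h2 := Real.log_pos h1
    have h3 := Real.pi_pos
    positivity
  · obtain ⟨γ, hγ, hl, hl'⟩ := hE3L k hk3
    refine ⟨fun t => γ * t, fun h => by omega, fun _ => ⟨γ, hγ, hl, fun _ => rfl⟩, ?_⟩
    refine expl hFIN hEXC k hk _ ?_ hl'
    refine eventually_atTop.2 ⟨1, fun t ht => ?_⟩
    have h1 : (0 : ℝ) < t := by exact_mod_cast ht
    positivity

end Pool.Agent.H4.TA
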