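import Pool.Agent.H43.TC.FIN
import Pool.Agent.H43.TC.FIN2
import Pool.Agent.H54.TC.DIV
import Pool.Agent.H42.TE.BOX
import Pool.Agent.H71.TE.ONE
import Pool.Agent.H1.TAS.QGL
import Pool.Agent.H1.TAS.SGN
import Pool.Agent.H1.TAS.WAL
import Pool.Agent.H10.TAS.SL1
import Pool.Agent.H10.TAS.SL1
import Pool.Agent.H11.TA.EXC
import Pool.Agent.H13.TAS.SLB
import Pool.Agent.H17.TAS.GRO
import Pool.Agent.H17.TAS.LGC
import Pool.Agent.H17.TAS.RGR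
import Pool.Agent.H20.TAS.GLG
import Pool.Agent.H20.TAS.SL2
import Pool.Agent.H20.TAS.TWO
import Pool.Agent.H29.TAS.QGT
import Pool.Agent.H29.TAS.QGT
import Pool.Agent.H35.TAS.P2E
import Pool.Agent.H35.TAS.SM2
import Pool.Agent.H39.TAS.WRD
import Pool.Agent.H4.TA.FIN
import Pool.Agent.H4.TA.FN2
import Pool.Agent.H41.TAS.EQT
import Pool.Agent.H46.TA.LOW
import Pool.Agent.H46.TA.PL3
import Pool.Agent.H49.TA.FLO
import Pool.Agent.H49.TA.PLC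
import Pool.Agent.H49.TA.RCD
import Pool.Agent.H52.TA.CHB
import Pool.Agent.H52.TA.LIL
import Pool.Agent.H54.TA.DES
import Pool.Agent.H54.TA.FUP
import Pool.Agent.H55.TA.BIN
import Pool.Agent.H64.TAS.NWC
import Pool.Agent.H64.TAS.TR2
import Pool.Agent.H67.TA.QAN
import Pool.Agent.H67.TA.REN
import Pool.Agent.H67.TA.REV
import Pool.Agent.H68.TA.AVQ
import Pool.Agent.H68.TA.SPL
import Pool.Agent.H69.TAS.E2L
import Pool.Agent.H70.TAS.SPT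
import Pool.Agent.H79.TA.RNW
import Pool.Agent.H79.TA.THR
import Pool.Agent.H80.TA.TR1
import Pool.Agent.H81.TA.TRP
import Pool.Agent.H81.TA.UPP
import Pool.Agent.H86.TAS.BN2
import Pool.Agent.H86.TAS.TRS
import Pool.Agent.H88.TAS.LIU
import Pool.Agent.H88.TAS.MNT
import Pool.Agent.H89.TAS.BNM
import Pool.Agent.H98.TAS.MOM
import Pool.Agent.H98.TAS.NW2

/-!
# The boundary of the region for long walks (MP_183c3b_co): assembly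
-/

set_option autoImplicit false

open Pool.Agent.H43.TC

namespace Pool.Agent.H4.TA.All

theorem a_WRD : T_WRD := Pool.Agent.H39.TAS.pf_WRD

theorem a_AVQ : T_AVQ := Pool.Agent.H68.TA.pf_AVQ a_WRD

theorem a_BIN : T_BIN := Pool.Agent.H55.TA.pf_BIN

theorem a_BN2 : T_BN2 := Pool.Agent.H86.TAS.BN2.pf_BN2

theorem a_BNM : T_BNM := Pool.Agent.H89.TAS.pf_BNM

theorem a_SPL : T_SPL := Pool.Agent.H68.TA.pf_SPL

theorem a_REV : T_REV := Pool.Agent.H67.TA.pf_REV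

theorem a_NWC : T_NWC := Pool.Agent.H64.TAS.pf_NWC a_SPL a_REV

theorem a_NW2 : T_NW2 := Pool.Agent.H98.TAS.pf_NW2 a_SPL a_NWC

theorem a_RCD : T_RCD := Pool.Agent.H49.TA.pf_RCD

theorem a_MOM : T_MOM := Pool.Agent.H98.TAS.pf_MOM a_AVQ a_NWC a_NW2 a_RCD

theorem a_REN : T_REN := Pool.Agent.H67.TA.pf_REN a_SPL

theorem a_QAN : T_QAN := Pool.Agent.H67.TA.pf_QAN a_SPL

theorem a_SGN : T_SGN := Pool.Agent.H1.TAS.pf_SGN

theorem a_TWO : T_TWO := Pool.Agent.H20.TAS.pf_TWO a_SGN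

theorem a_PLC : T_PLC := Pool.Agent.H49.TA.pf_PLC a_TWO a_BNM

theorem a_RNW : T_RNW := Pool.Agent.H79.TA.pf_RNW a_REN a_QAN a_PLC

theorem a_QGL : T_QGL := Pool.Agent.H1.TAS.pf_QGL

theorem a_GRO : T_GRO := Pool.Agent.H17.TAS.pf_GRO

theorem a_SL1 : T_SL1 := Pool.Agent.H10.TAS.pf_SL1 a_QGL a_GRO

theorem a_SLB : T_SLB := Pool.Agent.H13.TAS.pf_SLB

theorem a_SL2 : T_SL2 := Pool.Agent.H20.TAS.pf_SL2 a_SLB

theorem a_SM2 : T_SM2 := Pool.Agent.H35.TAS.pf_SM2 a_SL2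

theorem a_EIN : T_EIN := Pool.Agent.H10.TAS.pf_EIN

theorem a_CHB : T_CHB := Pool.Agent.H52.TA.pf_CHB a_MOM a_RNW a_AVQ a_SL1 a_SM2 a_EIN

theorem a_DES : T_DES :=
  Pool.Agent.H54.TA.pf_DES Pool.Agent.H43.TC.cls' Pool.Agent.H43.TC.cvx' Pool.Agent.H43.TC.sym'
    Pool.Agent.H42.TE.box Pool.Agent.H71.TE.one Pool.Agent.H54.TC.div2

theorem a_P2E : T_P2E := Pool.Agent.H35.TAS.pf_P2E

theorem a_WAL : T_WAL := Pool.Agent.H1.TAS.pf_WAL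

theorem a_GLG : T_GLG := Pool.Agent.H20.TAS.pf_GLG a_P2E a_WAL

theorem a_QGT : T_QGT := Pool.Agent.H29.TAS.pf_QGT a_QGL a_GRO

theorem a_EQT : T_EQT := Pool.Agent.H41.TAS.pf_EQT a_SL2

theorem a_E2L : T_E2L := Pool.Agent.H69.TAS.pf_E2L a_GLG a_QGT a_EQT a_RNW a_SL1 a_AVQ

theorem a_THR : T_THR := Pool.Agent.H79.TA.pf_THR a_SGN

theorem a_PL3 : T_PL3 := Pool.Agent.H46.TA.pf_PL3 a_THR a_BNM a_BN2

theorem a_TRS : T_TRS := Pool.Agent.H86.TAS.TRS.pf_TRS a_PL3 a_RNW a_QGL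

theorem a_E3L : T_E3L := Pool.Agent.H29.TAS.pf_E3L a_TRS a_AVQ

theorem a_EXC : T_EXC := Pool.Agent.H11.TA.pf_EXC

theorem a_SPT : T_SPT := Pool.Agent.H70.TAS.pf_SPT

theorem a_LGC : T_LGC := Pool.Agent.H17.TAS.pf_LGC a_SPT

theorem a_MNT : T_MNT := Pool.Agent.H88.TAS.pf_MNT Pool.Agent.H43.TC.dfs' Pool.Agent.H43.TC.dfn'

theorem a_LOW : T_LOW := Pool.Agent.H46.TA.pf_LOW a_LGC a_MNT

theorem a_RGR : T_RGR := Pool.Agent.H17.TAS.pf_RGR a_RNW a_AVQ a_SL1 a_SL2 a_EIN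

theorem a_LIL : T_LIL := Pool.Agent.H52.TA.pf_LIL

theorem a_FLO : T_FLO := Pool.Agent.H49.TA.pf_FLO Pool.Agent.H42.TE.box a_LOW a_RGR a_LIL

theorem a_TR1 : T_TR1 := Pool.Agent.H80.TA.pf_TR1

theorem a_TR2 : T_TR2 := Pool.Agent.H64.TAS.pf_TR2

theorem a_TRP : T_TRP := Pool.Agent.H81.TA.pf_TRP a_WRD a_BIN a_TR1 a_TR2

theorem a_UPP : T_UPP :=
  Pool.Agent.H81.TA.pf_UPP Pool.Agent.H43.TC.pat' Pool.Agent.H43.TC.ner' Pool.Agent.H31.TC.reg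
    a_TRP

theorem a_LIU : T_LIU := Pool.Agent.H88.TAS.pf_LIU

theorem a_FUP : T_FUP :=
  Pool.Agent.H54.TA.pf_FUP Pool.Agent.H43.TC.cvx' Pool.Agent.H71.TE.one Pool.Agent.H54.TC.div2
    Pool.Agent.H42.TE.box a_UPP a_CHB a_RGR a_LIU

theorem a_FIN : T_FIN := Pool.Agent.H4.TA.pf_FIN a_FLO a_FUP a_DES

theorem a_FN2 : T_FN2 := Pool.Agent.H4.TA.pf_FN2 a_FIN a_E2L a_E3L a_EXC

end Pool.Agent.H4.TA.All
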