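import Pool.Agent.H43.TC.Targets2

/-!
# The boundary of the region of staying probabilities for long walks (MP_183c3b_co): definitions

Words are functions `w : Fin t → Fin k × Bool`; the letter `(i, true)` is the step `e i`, the letter
`(i, false)` the step `-e i`.
-/

set_option autoImplicit false

open Finset Pool.Agent.H43.TC

namespace Pool.Agent.H4.TA

/-- the words of length `t` -/
abbrev Wd (k t : ℕ) : Type := Fin t → Fin k × Bool

/-- the step of a letter -/
def stp {k : ℕ} (a : Fin k × Bool) : Fin k → ℤ := if a.2 then un a.1 else -un a.1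

/-- the position after `i` letters -/
def pos {k t : ℕ} (w : Wd k t) (i : ℕ) : Fin k → ℤ :=
  ∑ l : Fin t, if (l : ℕ) < i then stp (w l) else 0

open Classical in
/-- the indicator of a proposition -/
noncomputable def ind (P : Prop) : ℝ := if P then 1 else 0

/-- the mean over all words of length `t` -/
noncomputable def av {k : ℕ} (t : ℕ) (f : Wd k t → ℝ) : ℝ := (∑ w, f w) / (2 * k : ℝ) ^ t

/-- the number of different points visited -/
def R {k t : ℕ} (w : Wd k t) : ℕ := ((range (t + 1)).image (pos w)).card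

/-- the position at time `i` is new -/
def Nw {k t : ℕ} (w : Wd k t) (i : ℕ) : Prop := ∀ l < i, pos w l ≠ pos w i

/-- the probability that the walk is at its starting point at time `t` -/
noncomputable def pp (k t : ℕ) : ℝ := av t fun w : Wd k t => ind (pos w t = 0)

/-- the probability that the walk does not return to its starting point within `t` steps -/
noncomputable def qq (k t : ℕ) : ℝ := av t fun w : Wd k t => ind (∀ i, 1 ≤ i → i ≤ t → pos w i ≠ 0)

/-- the renewal equation, with a bound for the return probabilities -/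
structure Ren (C : ℝ) (p q : ℕ → ℝ) : Prop where
  /-- the bound is positive -/
  pos : 1 ≤ C
  /-- start -/
  p0 : p 0 = 1
  /-- the probabilities are nonnegative -/
  pn : ∀ j, 0 ≤ p j
  /-- bound for the return probabilities -/
  pb : ∀ j, p j ≤ C / (j + 1)
  /-- start -/
  q0 : q 0 = 1
  /-- the sequence does not increase -/
  qa : Antitone q
  /-- the probabilities are nonnegative -/
  qn : ∀ j, 0 ≤ q j
  /-- the renewal equation -/
  re : ∀ t, ∑ j ∈ range (t + 1), p j * q (t - j) = 1

/-! ### indicators -/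

lemma ind_true {P : Prop} (h : P) : ind P = 1 := if_pos h

lemma ind_false {P : Prop} (h : ¬ P) : ind P = 0 := if_neg h

lemma ind_nonneg (P : Prop) : 0 ≤ ind P := by
  unfold ind
  split_ifs <;> norm_num

lemma ind_le_one (P : Prop) : ind P ≤ 1 := by
  unfold ind
  split_ifs <;> norm_num

lemma ind_mono {P Q : Prop} (h : P → Q) : ind P ≤ ind Q := by
  by_cases hP : P
  · rw [ind_true hP, ind_true (h hP)]
  · rw [ind_false hP]
    exact ind_nonneg Q

lemma ind_congr {P Q : Prop} (h : P ↔ Q) : ind P = ind Q :=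
  le_antisymm (ind_mono h.1) (ind_mono h.2)

lemma ind_and (P Q : Prop) : ind (P ∧ Q) = ind P * ind Q := by
  by_cases hP : P <;> by_cases hQ : Q <;>
    simp [ind, hP, hQ]

/-! ### means -/

lemma card_wd (k t : ℕ) : (Fintype.card (Wd k t) : ℝ) = (2 * k : ℝ) ^ t := by
  simp [mul_comm]

lemma av_nonneg {k t : ℕ} {f : Wd k t → ℝ} (h : ∀ w, 0 ≤ f w) : 0 ≤ av t f :=
  div_nonneg (sum_nonneg fun w _ => h w) (by positivity)

lemma av_mono {k t : ℕ} {f g : Wd k t → ℝ} (h : ∀ w, f w ≤ g w) : av t f ≤ av t g :=
  div_le_div_of_nonneg_right (sum_le_sum fun w _ => h w) (by positivity)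

lemma av_add {k t : ℕ} (f g : Wd k t → ℝ) : av t (fun w => f w + g w) = av t f + av t g := by
  simp [av, sum_add_distrib, add_div]

lemma av_mul {k t : ℕ} (c : ℝ) (f : Wd k t → ℝ) : av t (fun w => c * f w) = c * av t f := by
  simp [av, ← mul_sum, mul_div_assoc]

lemma av_sum {k t : ℕ} {ι : Type} (s : Finset ι) (f : ι → Wd k t → ℝ) :
    av t (fun w => ∑ i ∈ s, f i w) = ∑ i ∈ s, av t (f i) := by
  simp only [av]
  rw [sum_comm, sum_div]

lemma av_const {k : ℕ} (hk : 0 < k) (t : ℕ) (c : ℝ) : av t (fun _ : Wd k t => c) = c := by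
  unfold av
  have h : (0 : ℝ) < (2 * k : ℝ) ^ t := by
    have : (0 : ℝ) < k := by exact_mod_cast hk
    positivity
  rw [sum_const, card_univ, nsmul_eq_mul, card_wd, mul_div_assoc, mul_comm, div_mul_cancel₀]
  exact h.ne'

/-! ### positions -/

@[simp] lemma pos_zero {k t : ℕ} (w : Wd k t) : pos w 0 = 0 := by
  simp [pos]

lemma pos_succ {k t : ℕ} (w : Wd k t) {i : ℕ} (hi : i < t) :
    pos w (i + 1) = pos w i + stp (w ⟨i, hi⟩) := by
  unfold pos
  have h : ∀ l : Fin t, (if (l : ℕ) < i + 1 then stp (w l) else 0) =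
      (if (l : ℕ) < i then stp (w l) else 0) + (if l = ⟨i, hi⟩ then stp (w l) else 0) := by
    intro l
    by_cases h1 : (l : ℕ) < i
    · have h2 : l ≠ ⟨i, hi⟩ := by
        intro h
        rw [h] at h1
        simp at h1
      rw [if_pos h1, if_pos (by omega), if_neg h2, add_zero]
    · by_cases h2 : l = ⟨i, hi⟩
      · subst h2
        simp
      · have h3 : (l : ℕ) ≠ i := fun h => h2 (Fin.ext h)
        rw [if_neg h1, if_neg (by omega), if_neg h2, add_zero]
  simp_rw [h]
  rw [sum_add_distrib]
  simp

lemma pos_of_le {k t : ℕ} (w : Wd k t) {i : ℕ} (hi : t ≤ i) : pos w i = pos w t := by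
  unfold pos
  refine sum_congr rfl fun l _ => ?_
  rw [if_pos (l.2.trans_le hi), if_pos l.2]

/-- the first letter -/
lemma pos_cons {k t : ℕ} (a : Fin k × Bool) (w : Wd k t) (i : ℕ) :
    pos (Fin.cons a w : Wd k (t + 1)) (i + 1) = stp a + pos w i := by
  unfold pos
  rw [Fin.sum_univ_succ]
  simp

/-- the first part of a word -/
lemma pos_append_left {k i j : ℕ} (u : Wd k i) (v : Wd k j) {l : ℕ} (hl : l ≤ i) :
    pos (Fin.append u v : Wd k (i + j)) l = pos u l := by
  unfold pos
  rw [Fin.sum_univ_add]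
  have h : ∀ x : Fin j, (if ((Fin.natAdd i x : Fin (i + j)) : ℕ) < l then
      stp ((Fin.append u v : Wd k (i + j)) (Fin.natAdd i x)) else 0) = 0 := by
    intro x
    rw [if_neg]
    simp only [Fin.val_natAdd]
    omega
  simp only [h, sum_const_zero, add_zero]
  simp

/-- the second part of a word -/
lemma pos_append_right {k i j : ℕ} (u : Wd k i) (v : Wd k j) (l : ℕ) :
    pos (Fin.append u v : Wd k (i + j)) (i + l) = pos u i + pos v l := by
  unfold pos
  rw [Fin.sum_univ_add]
  congr 1
  · refine sum_congr rfl fun x _ => ?_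
    simp only [Fin.val_castAdd, Fin.append_left]
    rw [if_pos (by omega), if_pos x.2]
  · refine sum_congr rfl fun x _ => ?_
    simp only [Fin.val_natAdd, Fin.append_right]
    by_cases h : (x : ℕ) < l
    · rw [if_pos h, if_pos (by omega)]
    · rw [if_neg h, if_neg (by omega)]

/-- the reversed word -/
lemma pos_rev {k t : ℕ} (w : Wd k t) {i : ℕ} (hi : i ≤ t) :
    pos (fun l => w (Fin.rev l) : Wd k t) i = pos w t - pos w (t - i) := by
  unfold pos
  rw [← sum_sub_distrib, ← Equiv.sum_comp (Fin.revPerm (n := t))]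
  refine sum_congr rfl fun l _ => ?_
  simp only [Fin.revPerm_apply, Fin.rev_rev, Fin.val_rev]
  have hl := l.2
  rw [if_pos hl]
  by_cases h : (l : ℕ) < t - i
  · rw [if_neg (by omega), if_pos h, sub_self]
  · rw [if_pos (by omega), if_neg h, sub_zero]

end Pool.Agent.H4.TA
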