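import Pool.Agent.H4.TA.Defs

/-!
# The boundary of the region of staying probabilities for long walks (MP_183c3b_co): targets
-/

set_option autoImplicit false

open Finset Pool.Agent.H43.TC

namespace Pool.Agent.H4.TA

/-! ### words -/

/-- WRD. Walks and words. -/
def T_WRD : Prop := ∀ (G : Type) [AddCommGroup G] (k : ℕ) (s : Fin k → G) (φ : (Fin k → ℤ) →+ G),
  (∀ i, φ (un i) = s i) → ∀ (c : G → Bool) (b : Bool) (t : ℕ) (x : G),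
    (walks s c b t x : ℝ) = ∑ w : Wd k t, ind (∀ i ≤ t, c (x + φ (pos w i)) = b)

/-- AVQ. The probability of avoiding the starting point. -/
def T_AVQ : Prop := ∀ k t : ℕ, 0 < k → qq k t = (avoid k t : ℝ) / (2 * k : ℝ) ^ t

/-- SPL. Independence of the two parts of a word. -/
def T_SPL : Prop := ∀ (k i j : ℕ) (f : Wd k i → ℝ) (g : Wd k j → ℝ), 0 < k →
  av (i + j) (fun w : Wd k (i + j) => f (fun l => w (Fin.castAdd j l)) *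
    g (fun l => w (Fin.natAdd i l))) = av i f * av j g

/-- REV. Reversal of words. -/
def T_REV : Prop := ∀ (k t : ℕ) (f : Wd k t → ℝ),
  av t (fun w : Wd k t => f (fun l => w (Fin.rev l))) = av t f

/-- REN. Last visit to the starting point. -/
def T_REN : Prop := ∀ k t : ℕ, 0 < k → ∑ j ∈ range (t + 1), pp k j * qq k (t - j) = 1

/-- QAN. Elementary properties of the two sequences. -/
def T_QAN : Prop := ∀ k : ℕ, 0 < k → pp k 0 = 1 ∧ qq k 0 = 1 ∧ Antitone (qq k) ∧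
  (∀ j, 0 ≤ qq k j) ∧ ∀ j, 0 ≤ pp k j

/-- NWC. The probability of a new point. -/
def T_NWC : Prop := ∀ k t i : ℕ, 0 < k → i ≤ t → av t (fun w : Wd k t => ind (Nw w i)) = qq k i

/-- NW2. The probability of two new points. -/
def T_NW2 : Prop := ∀ k t i j : ℕ, 0 < k → i < j → j ≤ t →
  av t (fun w : Wd k t => ind (Nw w i) * ind (Nw w j)) ≤ qq k i * qq k (j - i)

/-- RCD. The number of different points is the number of new points. -/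
def T_RCD : Prop := ∀ (k t : ℕ) (w : Wd k t), (R w : ℝ) = ∑ i ∈ range (t + 1), ind (Nw w i)

/-- MOM. The first two moments of the number of different points. -/
def T_MOM : Prop := ∀ k t : ℕ, 0 < k → av t (fun w : Wd k t => (R w : ℝ)) = rng k t ∧
  av t (fun w : Wd k t => (R w : ℝ) ^ 2) ≤ rng k t +
    2 * ∑ i ∈ range (t + 1), qq k i * ∑ j ∈ range (t + 1 - i), qq k j

/-! ### return probabilities -/

/-- SGN. Sums of signs. -/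
def T_SGN : Prop := ∀ n : ℕ,
  ((univ.filter fun ε : Fin n → Bool => ∑ l, (if ε l then (1 : ℤ) else -1) = 0).card : ℝ) ^ 2 *
    (n + 1) ≤ 4 ^ n

/-- the number of letters of direction `a` -/
def dn {k j : ℕ} (d : Fin j → Fin k) (a : Fin k) : ℕ := (univ.filter fun l => d l = a).card

/-- TWO. Signs for given directions. -/
def T_TWO : Prop := ∀ (k j : ℕ) (d : Fin j → Fin k) (a b : Fin k), a ≠ b →
  ∑ ε : Fin j → Bool, ind (pos (fun l => (d l, ε l) : Wd k j) j = 0) ≤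
    2 ^ j * (1 / (2 * ((dn d a : ℝ) + 1)) + 1 / (2 * ((dn d b : ℝ) + 1)))

/-- BNM. The mean of `1 / (n + 1)` over all sequences of directions. -/
def T_BNM : Prop := ∀ (k j : ℕ) (a : Fin k),
  ∑ d : Fin j → Fin k, 1 / ((dn d a : ℝ) + 1) ≤ (k : ℝ) ^ (j + 1) / (j + 1)

/-- PLC. Bound for the return probabilities. -/
def T_PLC : Prop := ∀ k j : ℕ, 2 ≤ k → pp k j ≤ (k : ℝ) / (j + 1)

/-- RNW. The sequences of the walk satisfy the renewal equation. -/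
def T_RNW : Prop := ∀ k : ℕ, 2 ≤ k → Ren k (pp k) (qq k)

/-! ### sequences -/

/-- GRO. Slow growth of the partial sums. -/
def T_GRO : Prop := ∀ (C : ℝ) (p : ℕ → ℝ), 1 ≤ C → (∀ j, 0 ≤ p j) → p 0 = 1 →
  (∀ j, p j ≤ C / (j + 1)) → ∀ (L : ℕ) (e : ℝ), 1 ≤ L → 0 < e → ∃ n₀ : ℕ, ∀ n, n₀ ≤ n →
    ∑ j ∈ range (L * n + 1), p j ≤ (1 + e) * ∑ j ∈ range (n + 1), p j

/-- QGL. The product of `q` and the partial sums. -/
def T_QGL : Prop := ∀ (C : ℝ) (p q : ℕ → ℝ), Ren C p q →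
  (∀ n, q n * ∑ j ∈ range (n + 1), p j ≤ 1) ∧
  ∀ K n : ℕ, 2 ≤ K → 1 ≤ n → 1 - C / (K - 1) ≤ q n * ∑ j ∈ range (K * n + 1), p j

/-- SL1. The sequence `q` varies slowly. -/
def T_SL1 : Prop := ∀ (C : ℝ) (p q : ℕ → ℝ), Ren C p q → (∀ n, 0 < q n) ∧
  ∀ (M : ℕ) (e : ℝ), 1 ≤ M → 0 < e → ∃ n₀ : ℕ, ∀ n s, n₀ ≤ n → n ≤ s → s ≤ M * n →
    q n ≤ (1 + e) * q s

/-- EIN. The partial sums of `q` tend to infinity. -/
def T_EIN : Prop := ∀ (C : ℝ) (p q : ℕ → ℝ), Ren C p q → ∀ B : ℝ, ∃ t₀ : ℕ, ∀ t, t₀ ≤ t →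
  B ≤ ∑ s ∈ range (t + 1), q s

/-- SLB. The partial sums of a slowly varying sequence, crude bound. -/
def T_SLB : Prop := ∀ q : ℕ → ℝ, Antitone q → (∀ n, 0 < q n) →
  (∃ n₀ : ℕ, ∀ n s, n₀ ≤ n → n ≤ s → s ≤ 3 * n → q n ≤ 5 / 4 * q s) →
  ∃ B : ℝ, 1 ≤ B ∧ ∀ t : ℕ, ∑ s ∈ range (t + 1), q s ≤ B * ((t + 1) * q t)

/-- SL2. The partial sums of a slowly varying sequence. -/
def T_SL2 : Prop := ∀ q : ℕ → ℝ, Antitone q → (∀ n, 0 < q n) →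
  (∀ (M : ℕ) (e : ℝ), 1 ≤ M → 0 < e → ∃ n₀ : ℕ, ∀ n s, n₀ ≤ n → n ≤ s → s ≤ M * n →
    q n ≤ (1 + e) * q s) →
  (∀ e : ℝ, 0 < e → ∃ t₀ : ℕ, ∀ t, t₀ ≤ t →
    ∑ s ∈ range (t + 1), q s ≤ (1 + e) * ((t + 1) * q t)) ∧
  ∀ (M : ℕ) (e : ℝ), 1 ≤ M → 0 < e → ∃ t₀ : ℕ, ∀ t m, t₀ ≤ t → m ≤ t → t ≤ M * m →
    (∑ s ∈ range (m + 1), q s) * (t + 1) ≤ (1 + e) * ((m + 1) * ∑ s ∈ range (t + 1), q s)

/-- SM2. Double sums of a slowly varying sequence. -/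
def T_SM2 : Prop := ∀ q : ℕ → ℝ, Antitone q → (∀ n, 0 < q n) →
  (∀ (M : ℕ) (e : ℝ), 1 ≤ M → 0 < e → ∃ n₀ : ℕ, ∀ n s, n₀ ≤ n → n ≤ s → s ≤ M * n →
    q n ≤ (1 + e) * q s) →
  ∀ e : ℝ, 0 < e → ∃ t₀ : ℕ, ∀ t, t₀ ≤ t →
    ∑ i ∈ range (t + 1), q i * ∑ j ∈ range (t + 1 - i), q j ≤
      (1 / 2 + e) * (∑ s ∈ range (t + 1), q s) ^ 2

/-- RGR. The growth of the mean number of different points. -/
def T_RGR : Prop := ∀ k : ℕ, 2 ≤ k → (∀ t, 1 ≤ rng k t) ∧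
  (∀ B : ℝ, ∃ t₀ : ℕ, ∀ t, t₀ ≤ t → B ≤ rng k t) ∧
  ∀ (M : ℕ) (e : ℝ), 1 ≤ M → 0 < e → ∃ t₀ : ℕ, ∀ t m, t₀ ≤ t → m ≤ t → t ≤ M * m →
    rng k m * (t + 1) ≤ (1 + e) * ((m + 1) * rng k t)

/-- CHB. The number of different points is concentrated. -/
def T_CHB : Prop := ∀ (k : ℕ) (d e : ℝ), 2 ≤ k → 0 < d → 0 < e → ∃ t₀ : ℕ, ∀ t, t₀ ≤ t →
  av t (fun w : Wd k t => ind ((R w : ℝ) ≤ (1 - d) * rng k t)) ≤ e

/-! ### traps -/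

/-- BIN. Quotients of binomial coefficients. -/
def T_BIN : Prop := ∀ N K r : ℕ, K ≤ N → r ≤ N → 0 < N →
  ((N - r).choose K : ℝ) ≤ (1 - K / N : ℝ) ^ r * N.choose K

/-- TR1. Subsets with `K` elements which avoid a given set. -/
def T_TR1 : Prop := ∀ (V : Type) [Fintype V] [DecidableEq V] (K : ℕ) (A : Finset V),
  ((powersetCard K (univ : Finset V)).filter fun S => Disjoint S A).card =
    (Fintype.card V - A.card).choose K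

/-- TR2. The points visited in a large torus. -/
def T_TR2 : Prop := ∀ (k L t : ℕ) (w : Wd k t) (x : Tor k L), t < L →
  ((range (t + 1)).image fun i => x + pr (pos w i)).card = R w

/-- TRP. There is a good set of traps. -/
def T_TRP : Prop := ∀ (k L t K : ℕ) [NeZero L], 0 < k → t < L → K ≤ L ^ k →
  ∃ c : Tor k L → Bool, size c true = K ∧
    mono c false t ≤ av t (fun w : Wd k t => (1 - K / L ^ k : ℝ) ^ R w)

/-- UPP. The points of the region given by traps. -/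
def T_UPP : Prop := ∀ k t a b : ℕ, 0 < k → 1 ≤ t → 0 < a → a ≤ b → ∃ x y : ℝ, (x, y) ∈ region k t ∧
  1 - (a / b : ℝ) ≤ x ∧ y ≤ av t (fun w : Wd k t => (1 + (a / b : ℝ))⁻¹ ^ (R w - 1))

/-! ### the lower bound -/

/-- SPT. Walks through a middle point. -/
def T_SPT : Prop := ∀ (G : Type) [AddCommGroup G] [Fintype G] (k : ℕ) (s : Fin k → G)
  (c : G → Bool) (b : Bool) (i j : ℕ),
    ∑ x, walks s c b (i + j) x = ∑ x, walks s c b i x * walks s c b j x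

/-- LGC. Logarithmic convexity. -/
def T_LGC : Prop := ∀ (G : Type) [AddCommGroup G] [Fintype G] (k : ℕ) (s : Fin k → G)
  (c : G → Bool) (b : Bool) (h r : ℕ), 1 ≤ r →
    (∑ x, walks s c b (2 * h) x) ^ r ≤
      (∑ x, walks s c b (2 * h * r) x) * (univ.filter (fun x => c x = b)).card ^ (r - 1)

/-- MNT. Monotonicity in the time, and the inequality at the corner for finite tori. -/
def T_MNT : Prop := ∀ (k n : ℕ) [NeZero n] (c : Tor k n → Bool), 0 < k →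
  (∀ (b : Bool) (m t : ℕ), m ≤ t → stay c b t ≤ stay c b m) ∧
  ∀ m : ℕ, 1 ≤ m → 0 < size c true → Balanced c →
    1 - stay c false m ≤ (rng k m - 1) * (1 - stay c true m)

/-- LOW. The lower bound for the region. -/
def T_LOW : Prop := ∀ (k t h r : ℕ) (x y : ℝ), 0 < k → 1 ≤ h → 2 * h ≤ t → t ≤ 2 * h * r →
  (x, y) ∈ region k t → max 0 (1 - (rng k (2 * h) - 1) * (1 - x)) ^ r ≤ y

/-! ### the limits -/

/-- LIL. A limit for the lower bound. -/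
def T_LIL : Prop := ∀ ε : ℝ, 0 < ε → ∃ (M T : ℕ) (e : ℝ), 1 ≤ M ∧ 0 < e ∧
  ∀ (t h r : ℕ) (a v : ℝ), T ≤ t → h = t / (2 * M) + 1 → r = t / (2 * h) + 1 → 0 ≤ a → 0 ≤ v →
    a * (t + 1) ≤ (1 + e) * ((2 * h + 1) * v) → Real.exp (-v) - ε ≤ max 0 (1 - a) ^ r

/-- LIU. A limit for the upper bound. -/
def T_LIU : Prop := ∀ ε V : ℝ, 0 < ε → 0 < V → ∃ δ E₀ : ℝ, 0 < δ ∧ δ < 1 ∧ V ≤ E₀ ∧ 1 ≤ E₀ ∧
  ∀ (E u u' : ℝ) (n : ℕ), E₀ ≤ E → 0 ≤ u → E * u ≤ V → (1 - δ) * u ≤ u' → u' ≤ u →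
    (1 - δ) * E ≤ n + 1 → (1 + u')⁻¹ ^ n ≤ Real.exp (-(E * u)) + ε

/-- FLO. The boundary from below. -/
def T_FLO : Prop := ∀ (k : ℕ) (ε : ℝ), 2 ≤ k → 0 < ε → ∃ t₀ : ℕ, ∀ t, t₀ ≤ t →
  ∀ x y : ℝ, (x, y) ∈ region k t → Real.exp (-(rng k t * (1 - x))) - ε ≤ y

/-- FUP. The boundary from above. -/
def T_FUP : Prop := ∀ (k : ℕ) (ε : ℝ), 2 ≤ k → 0 < ε → ∃ t₀ : ℕ, ∀ t, t₀ ≤ t →
  ∀ x : ℝ, 0 ≤ x → x ≤ 1 → ∃ y : ℝ, (x, y) ∈ region k t ∧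
    y ≤ Real.exp (-(rng k t * (1 - x))) + ε

/-- DES. The region is given by its lower boundary. -/
def T_DES : Prop := ∀ k t : ℕ, 0 < k → 1 ≤ t → ∃ f : ℝ → ℝ,
  region k t = {p | (0 ≤ p.1 ∧ p.1 ≤ 1) ∧ (0 ≤ p.2 ∧ p.2 ≤ 1) ∧ f p.1 ≤ p.2 ∧ f p.2 ≤ p.1} ∧
  ∀ x : ℝ, 0 ≤ x → x ≤ 1 → (x, f x) ∈ region k t ∧ ∀ y : ℝ, (x, y) ∈ region k t → f x ≤ y

/-- FIN. The main theorem. -/
def T_FIN : Prop := ∀ (k : ℕ) (ε : ℝ), 2 ≤ k → 0 < ε → ∃ t₀ : ℕ, ∀ t, t₀ ≤ t → ∃ f : ℝ → ℝ,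
  region k t = {p | (0 ≤ p.1 ∧ p.1 ≤ 1) ∧ (0 ≤ p.2 ∧ p.2 ≤ 1) ∧ f p.1 ≤ p.2 ∧ f p.2 ≤ p.1} ∧
  ∀ x : ℝ, 0 ≤ x → x ≤ 1 → |f x - Real.exp (-(rng k t * (1 - x)))| ≤ ε

end Pool.Agent.H4.TA
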