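import Pool.Agent.H4.TA.Targets

/-!
# The boundary of the region of staying probabilities for long walks (MP_183c3b_co): explicit form

In the plane `rng 2 t` is asymptotic to `π t / log t`, for `k ≥ 3` to `γ t`, where `γ > 0` is the
probability that the walk never returns.
-/

set_option autoImplicit false

open Finset Filter Topology Pool.Agent.H43.TC

namespace Pool.Agent.H4.TA

/-- P2E. Return probabilities in the plane. -/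
def T_P2E : Prop := ∀ m : ℕ, pp 2 (2 * m) = ((m.centralBinom : ℝ) / 4 ^ m) ^ 2 ∧
  pp 2 (2 * m + 1) = 0

/-- WAL. The product of Wallis. -/
def T_WAL : Prop :=
  Tendsto (fun m : ℕ => (m : ℝ) * ((m.centralBinom : ℝ) / 4 ^ m) ^ 2) atTop (𝓝 (1 / Real.pi))

/-- GLG. The expected number of visits in the plane. -/
def T_GLG : Prop :=
  Tendsto (fun t : ℕ => (∑ j ∈ range (t + 1), pp 2 j) / Real.log t) atTop (𝓝 (1 / Real.pi))

/-- QGT. The product of `q` and the partial sums of `p` tends to one. -/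
def T_QGT : Prop := ∀ (C : ℝ) (p q : ℕ → ℝ), Ren C p q →
  Tendsto (fun n : ℕ => q n * ∑ j ∈ range (n + 1), p j) atTop (𝓝 1)

/-- EQT. The partial sums of a slowly varying sequence. -/
def T_EQT : Prop := ∀ q : ℕ → ℝ, Antitone q → (∀ n, 0 < q n) →
  (∀ (M : ℕ) (e : ℝ), 1 ≤ M → 0 < e → ∃ n₀ : ℕ, ∀ n s, n₀ ≤ n → n ≤ s → s ≤ M * n →
    q n ≤ (1 + e) * q s) →
  Tendsto (fun t : ℕ => (∑ s ∈ range (t + 1), q s) / (t * q t)) atTop (𝓝 1)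

/-- E2L. The mean number of different points in the plane. -/
def T_E2L : Prop := Tendsto (fun t : ℕ => rng 2 t / (Real.pi * t / Real.log t)) atTop (𝓝 1)

/-- EXC. Uniform continuity of the exponential function under dilation. -/
def T_EXC : Prop := ∀ ε : ℝ, 0 < ε → ∃ δ : ℝ, 0 < δ ∧ ∀ a v : ℝ, |a - 1| ≤ δ → 0 ≤ v →
  |Real.exp (-(a * v)) - Real.exp (-v)| ≤ ε

/-- THR. Signs for given directions, three directions. -/
def T_THR : Prop := ∀ (k j : ℕ) (d : Fin j → Fin k) (a b c : Fin k), a ≠ b → a ≠ c → b ≠ c →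
  ∑ ε : Fin j → Bool, ind (pos (fun l => (d l, ε l) : Wd k j) j = 0) ≤
    2 ^ j / 3 * (((dn d a : ℝ) + 1) ^ (-(3 / 2) : ℝ) + ((dn d b : ℝ) + 1) ^ (-(3 / 2) : ℝ) +
      ((dn d c : ℝ) + 1) ^ (-(3 / 2) : ℝ))

/-- BN2. The mean of `1 / ((n + 1) (n + 2))` over all sequences of directions. -/
def T_BN2 : Prop := ∀ (k j : ℕ) (a : Fin k),
  ∑ d : Fin j → Fin k, 1 / (((dn d a : ℝ) + 1) * ((dn d a : ℝ) + 2)) ≤
    (k : ℝ) ^ (j + 2) / ((j + 1) * (j + 2))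

/-- PL3. Bound for the return probabilities in dimension at least three. -/
def T_PL3 : Prop := ∀ k j : ℕ, 3 ≤ k → pp k j ≤ 2 * (k : ℝ) ^ 2 * ((j : ℝ) + 1) ^ (-(3 / 2) : ℝ)

/-- TRS. The walk is transient in dimension at least three. -/
def T_TRS : Prop := ∀ k : ℕ, 3 ≤ k → ∃ γ : ℝ, 0 < γ ∧ Tendsto (qq k) atTop (𝓝 γ)

/-- E3L. The mean number of different points in dimension at least three. -/
def T_E3L : Prop := ∀ k : ℕ, 3 ≤ k → ∃ γ : ℝ, 0 < γ ∧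
  Tendsto (fun s : ℕ => (avoid k s : ℝ) / (2 * k : ℝ) ^ s) atTop (𝓝 γ) ∧
  Tendsto (fun t : ℕ => rng k t / (γ * t)) atTop (𝓝 1)

/-- FN2. The main theorem, explicit form. -/
def T_FN2 : Prop := ∀ k : ℕ, 2 ≤ k → ∃ a : ℕ → ℝ,
  (k = 2 → ∀ t : ℕ, a t = Real.pi * t / Real.log t) ∧
  (3 ≤ k → ∃ γ : ℝ, 0 < γ ∧
    Tendsto (fun s : ℕ => (avoid k s : ℝ) / (2 * k : ℝ) ^ s) atTop (𝓝 γ) ∧ ∀ t : ℕ, a t = γ * t) ∧
  ∀ ε : ℝ, 0 < ε → ∃ t₀ : ℕ, ∀ t : ℕ, t₀ ≤ t → ∃ f : ℝ → ℝ,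
    region k t = {p | (0 ≤ p.1 ∧ p.1 ≤ 1) ∧ (0 ≤ p.2 ∧ p.2 ≤ 1) ∧ f p.1 ≤ p.2 ∧ f p.2 ≤ p.1} ∧
    ∀ x : ℝ, 0 ≤ x → x ≤ 1 → |f x - Real.exp (-(a t * (1 - x)))| ≤ ε

end Pool.Agent.H4.TA
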